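import Pool.Agent.Helper99.SC.GeoStmts

/-!
# The bits of the wires
-/

set_option autoImplicit false

namespace Pool.Agent.Helper52.SC

open Pool.Agent.Helper99.SC

section basic

variable {K : ℕ} {ops : List Op} {P : Bool → Pl → Pl → Prop}

theorem Pages.ex (hP : Pages K ops P) {s t : Pl} (hs : Pl.Ok K ops.length s)
    (ht : Pl.Ok K ops.length t) (h : HH ops s t) (b : Bool) (hb : ¬ P b s t) : P (!b) s t := by
  rcases (hP.cov s t hs ht).1 h with h1 | h1 <;> cases b <;> simp_all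

theorem Pages.hh (hP : Pages K ops P) {s t : Pl} (hs : Pl.Ok K ops.length s)
    (ht : Pl.Ok K ops.length t) {b : Bool} (hb : P b s t) : HH ops s t := by
  apply (hP.cov s t hs ht).2
  cases b <;> simp_all

/-- the first swapped pair is not an edge -/
theorem Pages.nin (hP : Pages K ops P) {s t s' t' : Pl} (hs : Pl.Ok K ops.length s)
    (ht : Pl.Ok K ops.length t) (hs' : Pl.Ok K ops.length s') (ht' : Pl.Ok K ops.length t')
    {b : Bool} (h : P b s t) (hc : PCross s t s' t') (hn : ¬ HH ops s t' ∨ ¬ HH ops s' t) :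
    ¬ P b s' t' := by
  intro h'
  have := hP.clo b s t s' t' hs ht hs' ht' h h' hc
  rcases hn with hn | hn
  · exact hn (Pages.hh hP hs ht' this.1)
  · exact hn (Pages.hh hP hs' ht this.2)

/-- the page of a crossing edge -/
theorem Pages.opp (hP : Pages K ops P) {s t s' t' : Pl} (hs : Pl.Ok K ops.length s)
    (ht : Pl.Ok K ops.length t) (hs' : Pl.Ok K ops.length s') (ht' : Pl.Ok K ops.length t')
    {b : Bool} (h : P b s t) (h' : HH ops s' t') (hc : PCross s t s' t')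
    (hn : ¬ HH ops s t' ∨ ¬ HH ops s' t) : P (!b) s' t' :=
  Pages.ex hP hs' ht' h' b (Pages.nin hP hs ht hs' ht' h hc hn)

end basic

section nodes

variable {K : ℕ} {ops : List Op} {P : Bool → Pl → Pl → Prop}

theorem node_ab (hP : Pages K ops P) {i k : ℕ} (hi : i ≤ ops.length) (hk : k < K) {b : Bool}
    (h : P b (i, 2, k, 6) (i, 1, k, 4)) : ¬ P b (i, 1, k, 1) (i, 0, k, 4) := by
  have h1 : P (!b) (i, 1, k, 2) (i, 1, k, 5) := by
    refine Pages.opp hP ?_ ?_ ?_ ?_ h ?_ ?_ (Or.inl ?_)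
    · simp [Pl.Ok]; omega
    · simp [Pl.Ok]; omega
    · simp [Pl.Ok]; omega
    · simp [Pl.Ok]; omega
    · simp [HH, HD]; omega
    · simp [PCross, Pool.Agent.Helper99.SC.btw, outs, plt]
    · simp [HH, HR, HY, HT, HP, HD, IsTT]
  have h2 : P (!!b) (i, 1, k, 0) (i, 1, k, 3) := by
    refine Pages.opp hP ?_ ?_ ?_ ?_ h1 ?_ ?_ (Or.inr ?_)
    · simp [Pl.Ok]; omega
    · simp [Pl.Ok]; omega
    · simp [Pl.Ok]; omega
    · simp [Pl.Ok]; omega
    · simp [HH, HY]; omega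
    · simp [PCross, Pool.Agent.Helper99.SC.btw, outs, plt]
    · simp [HH, HR, HY, HT, HP, HD, IsTT]
  rw [Bool.not_not] at h2
  refine Pages.nin hP ?_ ?_ ?_ ?_ h2 ?_ (Or.inl ?_)
  · simp [Pl.Ok]; omega
  · simp [Pl.Ok]; omega
  · simp [Pl.Ok]; omega
  · simp [Pl.Ok]; omega
  · simp [PCross, Pool.Agent.Helper99.SC.btw, outs, plt]
  · simp [HH, HR, HY, HT, HP, HD, IsTT]

theorem node_bc (hP : Pages K ops P) {i k : ℕ} (hi : i ≤ ops.length) (hk : k < K) {b : Bool}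
    (h : P b (i, 2, k, 6) (i, 1, k, 4)) : ¬ P (!b) (i, 2, k, 1) (i, 3, k, 1) := by
  have h1 : P (!b) (i, 2, k, 7) (i, 2, k, 4) := by
    refine Pages.opp hP ?_ ?_ ?_ ?_ h ?_ ?_ (Or.inr ?_)
    · simp [Pl.Ok]; omega
    · simp [Pl.Ok]; omega
    · simp [Pl.Ok]; omega
    · simp [Pl.Ok]; omega
    · simp [HH, HY]; omega
    · simp [PCross, Pool.Agent.Helper99.SC.btw, outs, plt]
    · simp [HH, HR, HY, HT, HP, HD, IsTT]
  have h2 : P (!!b) (i, 2, k, 2) (i, 2, k, 5) := by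
    refine Pages.opp hP ?_ ?_ ?_ ?_ h1 ?_ ?_ (Or.inl ?_)
    · simp [Pl.Ok]; omega
    · simp [Pl.Ok]; omega
    · simp [Pl.Ok]; omega
    · simp [Pl.Ok]; omega
    · simp [HH, HD]; omega
    · simp [PCross, Pool.Agent.Helper99.SC.btw, outs, plt]
    · simp [HH, HR, HY, HT, HP, HD, IsTT]
  rw [Bool.not_not] at h2
  have h3 : P (!b) (i, 2, k, 0) (i, 2, k, 3) := by
    refine Pages.opp hP ?_ ?_ ?_ ?_ h2 ?_ ?_ (Or.inr ?_)
    · simp [Pl.Ok]; omega
    · simp [Pl.Ok]; omega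
    · simp [Pl.Ok]; omega
    · simp [Pl.Ok]; omega
    · simp [HH, HY]; omega
    · simp [PCross, Pool.Agent.Helper99.SC.btw, outs, plt]
    · simp [HH, HR, HY, HT, HP, HD, IsTT]
  refine Pages.nin hP ?_ ?_ ?_ ?_ h3 ?_ (Or.inl ?_)
  · simp [Pl.Ok]; omega
  · simp [Pl.Ok]; omega
  · simp [Pl.Ok]; omega
  · simp [Pl.Ok]; omega
  · simp [PCross, Pool.Agent.Helper99.SC.btw, outs, plt]
  · simp [HH, HR, HY, HT, HP, HD, IsTT]

theorem node_cd (hP : Pages K ops P) {i k : ℕ} (hi : i ≤ ops.length) (hk : k < K) {b : Bool}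
    (h : P b (i, 2, k, 1) (i, 3, k, 1)) : ¬ P b (i, 3, k, 4) (i + 1, 0, k, 11) := by
  have h1 : P (!b) (i, 3, k, 0) (i, 3, k, 3) := by
    refine Pages.opp hP ?_ ?_ ?_ ?_ h ?_ ?_ (Or.inl ?_)
    · simp [Pl.Ok]; omega
    · simp [Pl.Ok]; omega
    · simp [Pl.Ok]; omega
    · simp [Pl.Ok]; omega
    · simp [HH, HD]; omega
    · simp [PCross, Pool.Agent.Helper99.SC.btw, outs, plt]
    · simp [HH, HR, HY, HT, HP, HD, IsTT]
  have h2 : P (!!b) (i, 3, k, 5) (i, 3, k, 2) := by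
    refine Pages.opp hP ?_ ?_ ?_ ?_ h1 ?_ ?_ (Or.inr ?_)
    · simp [Pl.Ok]; omega
    · simp [Pl.Ok]; omega
    · simp [Pl.Ok]; omega
    · simp [Pl.Ok]; omega
    · simp [HH, HY]; omega
    · simp [PCross, Pool.Agent.Helper99.SC.btw, outs, plt]
    · simp [HH, HR, HY, HT, HP, HD, IsTT]
  rw [Bool.not_not] at h2
  refine Pages.nin hP ?_ ?_ ?_ ?_ h2 ?_ (Or.inl ?_)
  · simp [Pl.Ok]; omega
  · simp [Pl.Ok]; omega
  · simp [Pl.Ok]; omega
  · simp [Pl.Ok]; omega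
  · simp [PCross, Pool.Agent.Helper99.SC.btw, outs, plt]
  · simp [HH, HR, HY, HT, HP, HD, IsTT]

end nodes

theorem sg_bits : M_bits := by
  intro K ops P _ hP
  classical
  refine ⟨fun i k => decide (P true (i, 1, k, 1) (i, 0, k, 4)), ?_⟩
  intro i hi k hk
  have okb1 : Pl.Ok K ops.length (i, 2, k, 6) := by simp [Pl.Ok]; omega
  have okb2 : Pl.Ok K ops.length (i, 1, k, 4) := by simp [Pl.Ok]; omega
  have oka1 : Pl.Ok K ops.length (i, 1, k, 1) := by simp [Pl.Ok]; omega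
  have oka2 : Pl.Ok K ops.length (i, 0, k, 4) := by simp [Pl.Ok]; omega
  have okc1 : Pl.Ok K ops.length (i, 2, k, 1) := by simp [Pl.Ok]; omega
  have okc2 : Pl.Ok K ops.length (i, 3, k, 1) := by simp [Pl.Ok]; omega
  have okd1 : Pl.Ok K ops.length (i, 3, k, 4) := by simp [Pl.Ok]; omega
  have okd2 : Pl.Ok K ops.length (i + 1, 0, k, 11) := by simp [Pl.Ok]; omega
  have ha : HH ops (i, 1, k, 1) (i, 0, k, 4) := by simp [HH, HR, IsTT]; omega
  have hb : HH ops (i, 2, k, 6) (i, 1, k, 4) := by simp [HH, HR, IsTT]; omega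
  have hc : HH ops (i, 2, k, 1) (i, 3, k, 1) := by simp [HH, HR, IsTT]; omega
  have hd : HH ops (i, 3, k, 4) (i + 1, 0, k, 11) := by simp [HH, HR, IsTT]; omega
  have key : ∀ b, P b (i, 2, k, 6) (i, 1, k, 4) →
      P (!b) (i, 1, k, 1) (i, 0, k, 4) ∧ ¬ P b (i, 1, k, 1) (i, 0, k, 4) ∧
      P (!b) (i, 3, k, 4) (i + 1, 0, k, 11) ∧ ¬ P b (i, 3, k, 4) (i + 1, 0, k, 11) := by
    intro b h
    have h1 := node_ab hP hi hk h
    have h2 := node_bc hP hi hk h
    have h3 : P b (i, 2, k, 1) (i, 3, k, 1) := by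
      have := Pages.ex hP okc1 okc2 hc _ h2
      rwa [Bool.not_not] at this
    have h4 := node_cd hP hi hk h3
    exact ⟨Pages.ex hP oka1 oka2 ha _ h1, h1, Pages.ex hP okd1 okd2 hd _ h4, h4⟩
  rcases (hP.cov _ _ okb1 okb2).1 hb with h | h
  · obtain ⟨h1, h2, h3, h4⟩ := key _ h
    constructor <;> intro b <;> cases b <;> simp_all
  · obtain ⟨h1, h2, h3, h4⟩ := key _ h
    constructor <;> intro b <;> cases b <;> simp_all

end Pool.Agent.Helper52.SC
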