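import Pool.Agent.Helper52.SC.Bits

/-!
# Every row performs its operation
-/

set_option autoImplicit false

namespace Pool.Agent.Helper52.SC

open Pool.Agent.Helper99.SC

section rows

variable {K : ℕ} {ops : List Op} {P : Bool → Pl → Pl → Prop}

/-- the bits of the wires at the row `T_(i+1)` -/
def BitsAt (K : ℕ) (P : Bool → Pl → Pl → Prop) (i : ℕ) (x y : ℕ → Bool) : Prop :=
  ∀ k < K, (∀ b, P b (i + 1, 1, k, 1) (i + 1, 0, k, 4) ↔ b = y k) ∧
    (∀ b, P b (i, 3, k, 4) (i + 1, 0, k, 11) ↔ b = x k)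

theorem mains_opp (hP : Pages K ops P) {i : ℕ} (hi : i < ops.length) {x y : ℕ → Bool}
    (hX : BitsAt K P i x y) {j j1 j2 l : ℕ} (hj : j < K) (hj1 : j1 < K) (hj2 : j2 < K)
    (hl : l = 13 ∨ l = 2) (h1 : j1 ≤ j) (h2 : j < j2 ∨ (j = j2 ∧ 11 < l)) {b : Bool}
    (h : P b (i + 1, 0, j1, 0) (i + 1, 0, j2, l)) : x j = !b ∧ y j = !b := by
  constructor
  · have : ¬ P b (i, 3, j, 4) (i + 1, 0, j, 11) := by
      refine Pages.nin hP ?_ ?_ ?_ ?_ h ?_ (Or.inr ?_)
      · simp [Pl.Ok]; omega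
      · rcases hl with rfl | rfl <;> simp [Pl.Ok] <;> omega
      · simp [Pl.Ok]; omega
      · simp [Pl.Ok]; omega
      · rcases hl with rfl | rfl <;> simp [PCross, Pool.Agent.Helper99.SC.btw, outs, plt] <;> omega
      · rcases hl with rfl | rfl <;> simp [HH, HR, HY, HT, HP, HD, IsTT]
    rw [(hX j hj).2 b] at this
    cases b <;> cases hx : x j <;> simp_all
  · have : ¬ P b (i + 1, 1, j, 1) (i + 1, 0, j, 4) := by
      refine Pages.nin hP ?_ ?_ ?_ ?_ h ?_ (Or.inr ?_)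
      · simp [Pl.Ok]; omega
      · rcases hl with rfl | rfl <;> simp [Pl.Ok] <;> omega
      · simp [Pl.Ok]; omega
      · simp [Pl.Ok]; omega
      · rcases hl with rfl | rfl <;> simp [PCross, Pool.Agent.Helper99.SC.btw, outs, plt] <;> omega
      · rcases hl with rfl | rfl <;> simp [HH, HR, HY, HT, HP, HD, IsTT]
    rw [(hX j hj).1 b] at this
    cases b <;> cases hx : y j <;> simp_all

theorem pass (hP : Pages K ops P) {i : ℕ} (hi : i < ops.length) {x y : ℕ → Bool}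
    (hX : BitsAt K P i x y) {j : ℕ} (hj : j < K)
    (h : HH ops (i + 1, 0, j, 0) (i + 1, 0, j, 13)) : y j = x j := by
  have ok1 : Pl.Ok K ops.length (i + 1, 0, j, 0) := by simp [Pl.Ok]; omega
  have ok2 : Pl.Ok K ops.length (i + 1, 0, j, 13) := by simp [Pl.Ok]; omega
  have : ∃ b, P b (i + 1, 0, j, 0) (i + 1, 0, j, 13) := by
    rcases (hP.cov _ _ ok1 ok2).1 h with h | h
    · exact ⟨_, h⟩
    · exact ⟨_, h⟩
  obtain ⟨b, hb⟩ := this
  obtain ⟨h1, h2⟩ := mains_opp hP hi hX hj hj hj (Or.inl rfl) le_rfl (Or.inr ⟨rfl, by norm_num⟩) hb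
  rw [h1, h2]

/-- a column of a `Z` row -/
theorem zcol (hP : Pages K ops P) {i : ℕ} (hi : i < ops.length) {x y : ℕ → Bool}
    (hX : BitsAt K P i x y) (ho : (opAt ops (i + 1)).1 = 3) {j : ℕ} (hj : j < K) :
    y j = x j ∧ P (y j) (i + 1, 0, j, 5) (i + 1, 0, j, 10) := by
  have ha : P (y j) (i + 1, 1, j, 1) (i + 1, 0, j, 4) := ((hX j hj).1 _).2 rfl
  have h1 : P (!y j) (i + 1, 0, j, 6) (i + 1, 0, j, 3) := by
    refine Pages.opp hP ?_ ?_ ?_ ?_ ha ?_ ?_ (Or.inl ?_)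
    · simp [Pl.Ok]; omega
    · simp [Pl.Ok]; omega
    · simp [Pl.Ok]; omega
    · simp [Pl.Ok]; omega
    · simp [HH, HT, ho]
    · simp [PCross, Pool.Agent.Helper99.SC.btw, outs, plt]
    · simp [HH, HR, HY, HT, HP, HD, IsTT]
  have h2 : P (!!y j) (i + 1, 0, j, 5) (i + 1, 0, j, 10) := by
    refine Pages.opp hP ?_ ?_ ?_ ?_ h1 ?_ ?_ (Or.inl ?_)
    · simp [Pl.Ok]; omega
    · simp [Pl.Ok]; omega
    · simp [Pl.Ok]; omega
    · simp [Pl.Ok]; omega
    · simp [HH, HD, ho]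
    · simp [PCross, Pool.Agent.Helper99.SC.btw, outs, plt]
    · simp [HH, HR, HY, HT, HP, HD, IsTT]
  rw [Bool.not_not] at h2
  have h3 : P (!y j) (i + 1, 0, j, 9) (i + 1, 0, j, 12) := by
    refine Pages.opp hP ?_ ?_ ?_ ?_ h2 ?_ ?_ (Or.inr ?_)
    · simp [Pl.Ok]; omega
    · simp [Pl.Ok]; omega
    · simp [Pl.Ok]; omega
    · simp [Pl.Ok]; omega
    · simp [HH, HT, ho]
    · simp [PCross, Pool.Agent.Helper99.SC.btw, outs, plt]
    · simp [HH, HR, HY, HT, HP, HD, IsTT]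
  have h4 : ¬ P (!y j) (i, 3, j, 4) (i + 1, 0, j, 11) := by
    refine Pages.nin hP ?_ ?_ ?_ ?_ h3 ?_ (Or.inr ?_)
    · simp [Pl.Ok]; omega
    · simp [Pl.Ok]; omega
    · simp [Pl.Ok]; omega
    · simp [Pl.Ok]; omega
    · simp [PCross, Pool.Agent.Helper99.SC.btw, outs, plt]
    · simp [HH, HR, HY, HT, HP, HD, IsTT]
  rw [(hX j hj).2] at h4
  refine ⟨?_, h2⟩
  cases hx : x j <;> cases hy : y j <;> simp_all

/-- the row `T_(i+1)` -/
theorem row (hP : Pages K ops P) (hp : P false (0, 0, 0, 0) (0, 0, 0, 2)) {i : ℕ}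
    (hi : i < ops.length) {x y : ℕ → Bool} (hX : BitsAt K P i x y) {c k : ℕ}
    (ho : opAt ops (i + 1) = (c, k)) (hv : Op.Valid K (c, k)) : StpK K (c, k) x y := by
  have hv1 : c < 4 := hv.1
  have hv2 : k < K := hv.2.1
  have hv3 : c = 1 → k + 1 < K := hv.2.2.1
  have hv4 : c = 2 → 0 < k := hv.2.2.2
  interval_cases c
  · -- free
    intro j hj hjk
    refine pass hP hi hX hj ?_
    simp [HH, HD, ho, hjk]
  · -- equal
    have hk1 : k + 1 < K := hv3 rfl
    have ok1 : Pl.Ok K ops.length (i + 1, 0, k, 0) := by simp [Pl.Ok]; omega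
    have ok2 : Pl.Ok K ops.length (i + 1, 0, k + 1, 13) := by simp [Pl.Ok]; omega
    have hh : HH ops (i + 1, 0, k, 0) (i + 1, 0, k + 1, 13) := by simp [HH, HD, ho]
    have : ∃ b, P b (i + 1, 0, k, 0) (i + 1, 0, k + 1, 13) := by
      rcases (hP.cov _ _ ok1 ok2).1 hh with h | h
      · exact ⟨_, h⟩
      · exact ⟨_, h⟩
    obtain ⟨b, hb⟩ := this
    obtain ⟨h1, h2⟩ := mains_opp hP hi hX (j := k) hv2 hv2 hk1 (Or.inl rfl) le_rfl
      (Or.inl (by omega)) hb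
    obtain ⟨h3, h4⟩ := mains_opp hP hi hX (j := k + 1) hk1 hv2 hk1 (Or.inl rfl) (by omega)
      (Or.inr ⟨rfl, by norm_num⟩) hb
    refine ⟨?_, by rw [h1, h3]⟩
    intro j hj
    by_cases hjk : j = k
    · subst hjk; rw [h1, h2]
    by_cases hjk1 : j = k + 1
    · subst hjk1; rw [h3, h4]
    refine pass hP hi hX hj ?_
    simp [HH, HD, ho, hjk, hjk1]
  · -- the operation L
    have hk0 : 0 < k := hv4 rfl
    obtain ⟨m, rfl⟩ : ∃ m, k = m + 1 := ⟨k - 1, by omega⟩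
    have ok1 : Pl.Ok K ops.length (i + 1, 0, m, 0) := by simp [Pl.Ok]; omega
    have ok2 : Pl.Ok K ops.length (i + 1, 0, m + 1, 2) := by simp [Pl.Ok]; omega
    have hh : HH ops (i + 1, 0, m, 0) (i + 1, 0, m + 1, 2) := by simp [HH, HD, ho]
    have : ∃ b, P b (i + 1, 0, m, 0) (i + 1, 0, m + 1, 2) := by
      rcases (hP.cov _ _ ok1 ok2).1 hh with h | h
      · exact ⟨_, h⟩
      · exact ⟨_, h⟩
    obtain ⟨b, hb⟩ := this
    obtain ⟨h1, h2⟩ := mains_opp hP hi hX (j := m) (by omega) (by omega) hv2 (Or.inr rfl) le_rfl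
      (Or.inl (by omega)) hb
    have h3 : P (!b) (i + 1, 0, m + 1, 1) (i + 1, 0, m + 1, 8) := by
      refine Pages.opp hP ok1 ok2 ?_ ?_ hb ?_ ?_ (Or.inr ?_)
      · simp [Pl.Ok]; omega
      · simp [Pl.Ok]; omega
      · simp [HH, HT, ho]
      · simp [PCross, Pool.Agent.Helper99.SC.btw, outs, plt]
      · simp [HH, HR, HY, HT, HP, HD, IsTT]
    refine ⟨?_, ?_⟩
    · intro j hj hjk
      by_cases hjm : j = m
      · subst hjm; rw [h1, h2]
      refine pass hP hi hX hj ?_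
      simp [HH, HD, ho, hjk, hjm]
    · rw [Nat.add_sub_cancel, h1]
      rintro ⟨e1, e2⟩
      have hd : P (!b) (i, 3, m + 1, 4) (i + 1, 0, m + 1, 11) := ((hX _ hv2).2 _).2 e1.symm
      have ha : P (!b) (i + 1, 1, m + 1, 1) (i + 1, 0, m + 1, 4) := ((hX _ hv2).1 _).2 e2.symm
      have ok3 : Pl.Ok K ops.length (i, 3, m + 1, 4) := by simp [Pl.Ok]; omega
      have ok4 : Pl.Ok K ops.length (i + 1, 0, m + 1, 11) := by simp [Pl.Ok]; omega
      have ok5 : Pl.Ok K ops.length (i + 1, 1, m + 1, 1) := by simp [Pl.Ok]; omega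
      have ok6 : Pl.Ok K ops.length (i + 1, 0, m + 1, 4) := by simp [Pl.Ok]; omega
      have ok7 : Pl.Ok K ops.length (i + 1, 0, m + 1, 1) := by simp [Pl.Ok]; omega
      have ok8 : Pl.Ok K ops.length (i + 1, 0, m + 1, 8) := by simp [Pl.Ok]; omega
      have h5 := (hP.clo _ _ _ _ _ ok3 ok4 ok5 ok6 hd ha
        (by simp [PCross, Pool.Agent.Helper99.SC.btw, outs, plt])).1
      have h6 := (hP.clo _ _ _ _ _ ok3 ok6 ok7 ok8 h5 h3
        (by simp [PCross, Pool.Agent.Helper99.SC.btw, outs, plt])).1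
      have h7 := Pages.hh hP ok3 ok8 h6
      simp [HH, HR, HY, HT, HP, HD, IsTT] at h7
  · -- the operation Z
    have ho3 : (opAt ops (i + 1)).1 = 3 := by rw [ho]
    refine ⟨fun j hj => (zcol hP hi hX ho3 hj).1, ?_⟩
    obtain ⟨h1, h2⟩ := zcol hP hi hX ho3 hv2
    have okp1 : Pl.Ok K ops.length (0, 0, 0, 0) := by simp [Pl.Ok]; omega
    have okp2 : Pl.Ok K ops.length (0, 0, 0, 2) := by simp [Pl.Ok]; omega
    have okp3 : Pl.Ok K ops.length (0, 0, 0, 1) := by simp [Pl.Ok]; omega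
    have okm : Pl.Ok K ops.length (i + 1, 0, k, 7) := by simp [Pl.Ok]; omega
    have h3 : P (!false) (0, 0, 0, 1) (i + 1, 0, k, 7) := by
      refine Pages.opp hP okp1 okp2 okp3 okm hp ?_ ?_ (Or.inl ?_)
      · simp [HH, HP, ho, IsTT]
      · simp [PCross, Pool.Agent.Helper99.SC.btw, outs, plt]
      · simp [HH, HR, HY, HT, HP, HD, IsTT, opAt]
    rw [Bool.not_false] at h3
    have h4 : ¬ P true (i + 1, 0, k, 5) (i + 1, 0, k, 10) := by
      refine Pages.nin hP okp3 okm ?_ ?_ h3 ?_ (Or.inl ?_)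
      · simp [Pl.Ok]; omega
      · simp [Pl.Ok]; omega
      · simp [PCross, Pool.Agent.Helper99.SC.btw, outs, plt]
      · simp [HH, HR, HY, HT, HP, HD, IsTT]
    rw [← h1]
    cases hy : y k
    · rfl
    · rw [hy] at h2; exact absurd h2 h4

end rows

theorem sg_rows (hb : M_bits) : M_rows := by
  intro K ops P hv hP
  rcases Nat.eq_zero_or_pos K with rfl | hK
  · refine ⟨fun _ _ => false, ?_⟩
    intro i hi
    have hmem : ops.getD i (9, 0) ∈ ops := by
      rw [List.getD_eq_getElem _ _ hi]; exact List.getElem_mem hi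
    have := (hv _ hmem).2.1
    omega
  -- the page of the isolated edge around the constant
  have okp1 : Pl.Ok K ops.length (0, 0, 0, 0) := by simp [Pl.Ok]; omega
  have okp2 : Pl.Ok K ops.length (0, 0, 0, 2) := by simp [Pl.Ok]; omega
  have hpp : ∃ c, P c (0, 0, 0, 0) (0, 0, 0, 2) := by
    have : HH ops (0, 0, 0, 0) (0, 0, 0, 2) := by simp [HH, HD]
    rcases (hP.cov _ _ okp1 okp2).1 this with h | h
    · exact ⟨_, h⟩
    · exact ⟨_, h⟩
  obtain ⟨c, hc⟩ := hpp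
  have hP' : Pages K ops (fun b => P (b ^^ c)) := by
    refine ⟨?_, ?_⟩
    · intro s t hs ht
      rw [hP.cov s t hs ht]
      cases c
      · simp
      · simp [or_comm]
    · intro b s t s' t' hs ht hs' ht' h1 h2 h3
      exact hP.clo _ s t s' t' hs ht hs' ht' h1 h2 h3
  obtain ⟨X, hX⟩ := hb K ops _ hv hP'
  refine ⟨X, ?_⟩
  intro i hi
  have hmem : ops.getD i (9, 0) ∈ ops := by
    rw [List.getD_eq_getElem _ _ hi]; exact List.getElem_mem hi
  have hop : opAt ops (i + 1) = ops.getD i (9, 0) := by simp [opAt]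
  have hB : BitsAt K (fun b => P (b ^^ c)) i (X i) (X (i + 1)) := by
    intro k hk
    exact ⟨(hX (i + 1) hi k hk).1, (hX i hi.le k hk).2⟩
  rcases ho : ops.getD i (9, 0) with ⟨e, k⟩
  rw [ho] at hmem hop
  exact row hP' (by simpa using hc) hi hB hop (hv _ hmem)

end Pool.Agent.Helper52.SC
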